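import Pool.Agent.X238.DW.Stm3
import Pool.Agent.X330.FE.INV

/-! (SA) -/

set_option autoImplicit false

namespace Pool.Agent.X325.DW

open MeasureTheory Set Filter Topology
open Pool.Agent.X238.DW

universe v

theorem t_SA : S_SA.{v} := by
  intro H _ _ _ A b hb hd hadj hco
  have hsym : ∀ x y : A.domain, inner ℝ (A x) (y : H) = inner ℝ (x : H) (A y) := by
    intro x y
    have h := LinearPMap.adjoint_isFormalAdjoint hd
    rw [hadj] at h
    exact h x y
  have hmax : ∀ y z : H, (∀ x : A.domain, inner ℝ (A x) y = inner ℝ (x : H) z) →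
      ∃ h : y ∈ A.domain, A ⟨y, h⟩ = z := by
    intro y z h
    have h1 : y ∈ A.adjoint.domain := by
      rw [LinearPMap.mem_adjoint_domain_iff]
      have h2 : (fun x : A.domain => inner ℝ y (A x)) = fun x : A.domain => inner ℝ z (x : H) := by
        funext x
        rw [real_inner_comm, h x, real_inner_comm]
      show Continuous fun x : A.domain => inner ℝ y (A x)
      rw [h2]
      fun_prop
    have h3 : A.adjoint ⟨y, h1⟩ = z := by
      refine LinearPMap.adjoint_apply_eq hd ⟨y, h1⟩ (fun x => ?_)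
      show inner ℝ z (x : H) = inner ℝ y (A x)
      rw [real_inner_comm, ← h x, real_inner_comm]
    have h4 : y ∈ A.domain := by rw [hadj] at h1; exact h1
    refine ⟨h4, ?_⟩
    rw [← h3]
    have key : ∀ (B : H →ₗ.[ℝ] H) (e : B = A) (hy : y ∈ B.domain), A ⟨y, h4⟩ = B ⟨y, hy⟩ := by
      rintro B rfl hy
      rfl
    exact key _ hadj h1
  obtain ⟨T, hT⟩ := Pool.Agent.X330.FE.t H A.domain A.toFun b
    ⟨hd, hsym, hmax, hb, hco⟩
  refine ⟨T, fun x => (hT.mem x).1, fun x h => (hT.mem x).2, hT.left, hT.sym, fun x => ?_, ?_⟩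
  · obtain ⟨h1, h2⟩ := hT.mem x
    have h3 := hco ⟨T x, h1⟩
    have h4 : A ⟨T x, h1⟩ = x := h2
    rw [h4, real_inner_comm] at h3
    exact h3
  · refine hT.dense2.mono ?_
    rintro _ ⟨x, rfl⟩
    exact ⟨T x, rfl⟩

end Pool.Agent.X325.DW
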